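import Pool.Agent.Helper17.IA.VOF
import Pool.Agent.Helper12.IA.M_VSF
import Pool.Agent.Helper2.IA.M_VAN
import Pool.Agent.Helper99.IA.M_VST
import Pool.Agent.Helper15.IA.M_VCH
import Pool.Agent.Helper54.IA.M_PKB
import Pool.Agent.Helper14.IA.M_PKU
import Pool.Agent.Helper28.IA.M_CDF
import Pool.Agent.Helper18.IA.M_ITS
import Pool.Agent.Helper82.IA.M_ITF
import Pool.Agent.Helper22.IA.M_ABF
import Pool.Agent.Helper33.IA.M_FRM
import Pool.Agent.Helper29.IA.M_FDC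
import Pool.Agent.Helper84.IA.M_FLL
import Pool.Agent.Helper32.IA.M_FFN

set_option autoImplicit false

namespace Pool.Agent.Helper17.IA

open Pool.Agent.Helper93.IA

theorem hVOR : StVOR :=
  hVOF Pool.Agent.Helper12.IA.hVSF Pool.Agent.Helper2.IA.hVAN Pool.Agent.Helper99.IA.hVST
    Pool.Agent.Helper15.IA.hVCH

theorem hITR : StITR :=
  Pool.Agent.Helper82.IA.hITF Pool.Agent.Helper54.IA.hPKB Pool.Agent.Helper14.IA.hPKU
    Pool.Agent.Helper28.IA.hCDF Pool.Agent.Helper18.IA.hITS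

theorem hFIN : StFIN :=
  Pool.Agent.Helper32.IA.hFFN Pool.Agent.Helper54.IA.hPKB Pool.Agent.Helper14.IA.hPKU
    Pool.Agent.Helper22.IA.hABF Pool.Agent.Helper33.IA.hFRM Pool.Agent.Helper29.IA.hFDC
    Pool.Agent.Helper84.IA.hFLL

end Pool.Agent.Helper17.IA
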