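import Pool.Agent.Helper93.IA.St0

/-!
# Project IA, part V (helper17): vortex (StVOR), iteration (StITR), final assembly (StFIN)

Statements of the modules, with complete proofs in the docstrings. Interface: `Helper93/IA/St0.lean`.
-/

set_option autoImplicit false

namespace Pool.Agent.Helper17.IA

open Finset Pool.Agent.Helper93.IA

/-! ## The vortex -/

/-- VSF (random subset, in the form used by the vortex). PROOF. The given `StSUB` for `ξ` gives `n0`;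
apply it to the types `↥S` and `↥T1 ⊕ ↥T2` (`card = 2 s ≤ 4 s`), with `F (inl t) =` the set of
the `x : ↥S` with `(x, t) ∉ G` and `F (inr t) =` the set of the `x : ↥S` with `(t, x) ∉ H`. Let
`U = U'.map (Function.Embedding.subtype _)` for the set `U'` obtained. Then `U ⊆ S`, `U.card = U'.card`,
`(F (inl t)).card = m2 G S t`, `(F (inl t) ∩ U').card = m2 G U t`,
`(F (inr t)).card = m1 H S t`, `(F (inr t) ∩ U').card = m1 H U t` (`Finset.card_bij` or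
`card_map`/`filter_map`; `m1`, `m2` are cards of filters). -/
def StVSF : Prop :=
  StSUB → ∀ ξ : ℝ, 0 < ξ → ξ ≤ 1 / 2 → ∃ n0 : ℕ, ∀ (n s : ℕ) (G H : Finset (Fin n × Fin n))
    (S T1 T2 : Finset (Fin n)), n0 ≤ s → S.card = s → T1.card = s → T2.card = s →
    ∃ U : Finset (Fin n), U ⊆ S ∧ U.card = ⌊ξ * s⌋₊ ∧
      (∀ t ∈ T1, |(m2 G U t : ℝ) - m2 G S t * U.card / s| ≤ (U.card : ℝ) ^ ((2 : ℝ) / 3)) ∧
      ∀ t ∈ T2, |(m1 H U t : ℝ) - m1 H S t * U.card / s| ≤ (U.card : ℝ) ^ ((2 : ℝ) / 3)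

/-- All the numbers of non-neighbours of vertices of `S` in the classes of `U` are within `e` of `t`. -/
def NearE {n : ℕ} (A B C : Finset (Fin n × Fin n)) (S U : Fin 3 → Finset (Fin n)) (t e : ℝ) :
    Prop :=
  Near A B C (S 0) (S 1) (S 2) (U 0) (U 1) (U 2) (t - e) (t + e)

/-- VAN (elementary estimate). PROOF. `s, m ≥ 0`; `m ≤ s / 1000`. If `s = 0` both sides are `0`
(`m = 0`). Otherwise `s ^ (2/3) * m / s = m / s ^ (1/3)` (`Real.rpow_add` or `rpow_sub`), and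
`s ^ (1/3) ≥ (1000 m) ^ (1/3) = 10 m ^ (1/3)` (`Real.rpow_le_rpow`, `Real.mul_rpow`,
`(1000 : ℝ) ^ (1/3) = 10`), so for `m > 0`
`s ^ (2/3) * m / s ≤ m / (10 m ^ (1/3)) = m ^ (2/3) / 10`; for `m = 0` both sides are `0`. -/
def StVAN : Prop :=
  ∀ s m : ℝ, 0 ≤ m → m ≤ s / 1000 → s ^ ((2 : ℝ) / 3) * m / s ≤ m ^ ((2 : ℝ) / 3) / 10

/-- VST (one step of the vortex). PROOF. `n0 = max 1` of the number of `StVSF` for `ξ`. Let
`m = ⌊ξ s⌋₊ ≤ ξ s ≤ s / 1000`. Apply VSF three times: for the class `0` with `G = A`, `H = C`,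
`S = S 0`, `T1 = S 1`, `T2 = S 2`; for the class `1` with `G = B`, `H = A`, `S = S 1`, `T1 = S 2`,
`T2 = S 0`; for the class `2` with `G = C`, `H = B`, `S = S 2`, `T1 = S 0`, `T2 = S 1`; `U 0, U 1, U 2` are
the sets obtained (`U = ![U0, U1, U2]`). Every number of non-neighbours `f'` of a vertex of
`S` in `U j` satisfies `|f' - f m / s| ≤ m ^ (2/3)`, where `f` is the number of its
non-neighbours in `S j`, `|f - κ s| ≤ 2 s ^ (2/3)`. So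
`|f' - κ m| ≤ m ^ (2/3) + |f - κ s| m / s ≤ m ^ (2/3) + 2 s ^ (2/3) m / s ≤ 2 m ^ (2/3)` by VAN (`s > 0`). -/
def StVST : Prop :=
  StSUB → StVSF → StVAN → ∀ ξ : ℝ, 0 < ξ → ξ ≤ 1 / 1000 → ∃ n0 : ℕ, 1 ≤ n0 ∧ ∀ (n s : ℕ) (κ : ℝ)
    (A B C : Finset (Fin n × Fin n)) (S : Fin 3 → Finset (Fin n)), n0 ≤ s → (∀ j, (S j).card = s) →
    NearE A B C S S (κ * s) (2 * (s : ℝ) ^ ((2 : ℝ) / 3)) →
    ∃ U : Fin 3 → Finset (Fin n), (∀ j, U j ⊆ S j) ∧ (∀ j, (U j).card = ⌊ξ * s⌋₊) ∧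
      NearE A B C S U (κ * (⌊ξ * s⌋₊ : ℕ)) (2 * ((⌊ξ * s⌋₊ : ℕ) : ℝ) ^ ((2 : ℝ) / 3))

/-- A vortex of `ℓ + 1` levels which starts with the three sets `S` (`Chain` is the case `S = univ`). -/
structure Chain1 {n : ℕ} (A B C : Finset (Fin n × Fin n)) (S : Fin 3 → Finset (Fin n))
    (κ ε ξ : ℝ) (n0 ℓ : ℕ) (V : ℕ → Fin 3 → Finset (Fin n)) : Prop where
  zero : ∀ j, V 0 j = S j
  sub : ∀ i < ℓ, ∀ j, V (i + 1) j ⊆ V i j
  card : ∀ i < ℓ, ∀ j, (V (i + 1) j).card = ⌊ξ * (V i 0).card⌋₊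
  big : ∀ i ≤ ℓ, ∀ j, n0 ≤ (V i j).card
  near : ∀ i ≤ ℓ, Near A B C (V i 0) (V i 1) (V i 2) (V i 0) (V i 1) (V i 2)
    ((κ - ε) * (V i 0).card) ((κ + ε) * (V i 0).card)
  next : ∀ i < ℓ, Near A B C (V i 0) (V i 1) (V i 2) (V (i + 1) 0) (V (i + 1) 1) (V (i + 1) 2)
    ((κ - ε) * (V (i + 1) 0).card) ((κ + ε) * (V (i + 1) 0).card)

/-- VCH (the chain). PROOF. Let `n1` be the number of `StVST` for `ξ` and choose `N0 ≥ n1`, `N0 ≥ 1`,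
`N0 ≥ (2/ε)^3`, so that `2 s ^ (2/3) ≤ ε s` for `s ≥ N0` (`s ^ (1/3) ≥ 2/ε`). Let `n0 ≥ N0`,
`M = ⌈n0 / ξ⌉₊`. Strong induction on `s` (for all `S`). If `⌊ξ s⌋₊ < n0`: then `ξ s < n0`,
`s ≤ M`: take `ℓ = 0`, `V i = S` for all `i`. Otherwise let `m = ⌊ξ s⌋₊ ≥ n0`, `m < s` (`ξ ≤ 1/1000`,
`s ≥ 1`), take `U` from VST; `NearE A B C U U (κ m) (2 m ^ (2/3))` because `U j ⊆ S j` (the
vertices are restricted, the sets in which the non-neighbours are counted are the same). The induction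
hypothesis gives `ℓ'`, `V'` for `U`; take `ℓ = ℓ' + 1`, `V 0 = S`, `V (i+1) = V' i`
(`V = fun i => Nat.casesOn i S V'`). All the fields: for `i = 0` by the above
(`near 0`: `κ s ± 2 s ^ (2/3)` lies within `(κ ± ε) s`; `next 0`: `κ m ± 2 m ^ (2/3)` lies within
`(κ ± ε) m`; `card 0`: `(U j).card = ⌊ξ s⌋₊`), for `i + 1` from the fields of `V'`. -/
def StVCH : Prop :=
  (∀ ξ : ℝ, 0 < ξ → ξ ≤ 1 / 1000 → ∃ n0 : ℕ, 1 ≤ n0 ∧ ∀ (n s : ℕ) (κ : ℝ)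
    (A B C : Finset (Fin n × Fin n)) (S : Fin 3 → Finset (Fin n)), n0 ≤ s → (∀ j, (S j).card = s) →
    NearE A B C S S (κ * s) (2 * (s : ℝ) ^ ((2 : ℝ) / 3)) →
    ∃ U : Fin 3 → Finset (Fin n), (∀ j, U j ⊆ S j) ∧ (∀ j, (U j).card = ⌊ξ * s⌋₊) ∧
      NearE A B C S U (κ * (⌊ξ * s⌋₊ : ℕ)) (2 * ((⌊ξ * s⌋₊ : ℕ) : ℝ) ^ ((2 : ℝ) / 3))) →
  ∀ ξ ε : ℝ, 0 < ξ → ξ ≤ 1 / 1000 → 0 < ε → ∃ N0 : ℕ, 1 ≤ N0 ∧ ∀ n0 : ℕ, N0 ≤ n0 → ∃ M : ℕ,
    ∀ (n s : ℕ) (κ : ℝ) (A B C : Finset (Fin n × Fin n)) (S : Fin 3 → Finset (Fin n)), n0 ≤ s →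
      (∀ j, (S j).card = s) → NearE A B C S S (κ * s) (2 * (s : ℝ) ^ ((2 : ℝ) / 3)) →
      ∃ (ℓ : ℕ) (V : ℕ → Fin 3 → Finset (Fin n)), Chain1 A B C S κ ε ξ n0 ℓ V ∧
        ∀ j, (V ℓ j).card ≤ M

/-! ## Algebra of packings and decompositions -/

/-- PKB (packings and balance). PROOF. Let `P` be a packing. For a vertex `a` the maps `eA`, `eC` are
injective on `P` (fields `iA`, `iC`), so `d1 (P.image eA) a` = number of the `T ∈ P` with `T.1 = a`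
= `d2 (P.image eC) a` (`filter_image`, `card_image_of_injOn`); the same at `b`, `c`. So
`Bal (P.image eA) (P.image eB) (P.image eC)`. (3): for `X ⊆ A`, `d1 (A \ X) a = d1 A a - d1 X a`
(`filter` of `A` is the disjoint union of the filters of `X` and `A \ X`), the same for `d2`. (1) and
(2) follow ((2): a decomposition is a packing with `P.image eA = A` etc.). -/
def StPKB : Prop :=
  ∀ (α β γ : Type) [DecidableEq α] [DecidableEq β] [DecidableEq γ],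
    (∀ (A : Finset (α × β)) (B : Finset (β × γ)) (C : Finset (γ × α)) (P : Finset (α × β × γ)),
      Pack A B C P → Bal A B C →
        Bal (A \ P.image eA) (B \ P.image eB) (C \ P.image eC)) ∧
    (∀ (A : Finset (α × β)) (B : Finset (β × γ)) (C : Finset (γ × α)), Dec A B C → Bal A B C) ∧
    ∀ (A XA : Finset (α × β)) (B XB : Finset (β × γ)) (C XC : Finset (γ × α)),
      XA ⊆ A → XB ⊆ B → XC ⊆ C → Bal A B C → Bal XA XB XC → Bal (A \ XA) (B \ XB) (C \ XC)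

/-- PKU (unions). PROOF. (1) Fields `sA sB sC`: clear. `iA`: if `T ∈ P`, `T' ∈ P'` and `eA T = eA T'`,
then `eA T' ∈ A \ P.image eA`, but `eA T' = eA T ∈ P.image eA`, contradiction; both in `P` or both in
`P'`: the given fields. (2) Let `P`, `P'` be the decompositions: `P ∪ P'` is a packing of the union
(mixed case: `eA T ∈ A`, `eA T' ∈ A'`, disjoint), `image_union`. (3) Finset induction over `s` with (2)
(`biUnion_insert`; the biUnion over the smaller set is disjoint from the new member); empty case: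
`P = ∅`. -/
def StPKU : Prop :=
  ∀ (α β γ : Type) [DecidableEq α] [DecidableEq β] [DecidableEq γ],
    (∀ (A : Finset (α × β)) (B : Finset (β × γ)) (C : Finset (γ × α)) (P P' : Finset (α × β × γ)),
      Pack A B C P → Pack (A \ P.image eA) (B \ P.image eB) (C \ P.image eC) P' →
        Pack A B C (P ∪ P')) ∧
    (∀ (A A' : Finset (α × β)) (B B' : Finset (β × γ)) (C C' : Finset (γ × α)),
      Disjoint A A' → Disjoint B B' → Disjoint C C' → Dec A B C → Dec A' B' C' →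
        Dec (A ∪ A') (B ∪ B') (C ∪ C')) ∧
    ∀ (ι : Type) [DecidableEq ι] (s : Finset ι) (A : ι → Finset (α × β)) (B : ι → Finset (β × γ))
      (C : ι → Finset (γ × α)), (∀ i ∈ s, Dec (A i) (B i) (C i)) →
      (∀ i ∈ s, ∀ j ∈ s, i ≠ j → Disjoint (A i) (A j) ∧ Disjoint (B i) (B j) ∧
        Disjoint (C i) (C j)) → Dec (s.biUnion A) (s.biUnion B) (s.biUnion C)

/-! ## Iteration -/

/-- The conclusion of the cover down statement inside `Fin N`. -/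
def CDC {N : ℕ} (g : ℝ) (m : ℕ) (A B C : Finset (Fin N × Fin N)) (U W : Fin 3 → Finset (Fin N)) :
    Prop :=
  ∃ P, Pack A B C P ∧ A \ P.image eA ⊆ ins A (U 0) (U 1) ∧ B \ P.image eB ⊆ ins B (U 1) (U 2) ∧
    C \ P.image eC ⊆ ins C (U 2) (U 0) ∧
    ins (P.image eA) (W 0) (W 1) = ∅ ∧ ins (P.image eB) (W 1) (W 2) = ∅ ∧
    ins (P.image eC) (W 2) (W 0) = ∅ ∧
    Sm (ins (P.image eA) (U 0) (U 1)) (g * m) ∧ Sm (ins (P.image eB) (U 1) (U 2)) (g * m) ∧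
    Sm (ins (P.image eC) (U 2) (U 0)) (g * m)

/-- CDF (cover down for graphs on `Fin N`, all edges inside the classes `S 0, S 1, S 2`). PROOF.
Transport by the inclusions `↥(S j) → Fin N`: `α = ↥(S 0)`, `β = ↥(S 1)`, `γ = ↥(S 2)`,
`A0' = univ.filter (fun e => (e.1, e.2) ∈ A0)` (with the coercions) etc.,
`U1' = univ.filter (fun x => x ∈ U 0)` (or `(U 0).subtype (· ∈ S 0)`), `W1'` likewise. All numbers agree:
`m1 A0' univ a = m1 A0 (S 1) a`, `m1 A0' U2' a = m1 A0 (U 1) a` (`U 1 ⊆ S 1`), `d1 A' a = d1 A a` and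
`d1 (A0' \ A') a = d1 (A0 \ A) a` because all the edges of `A0` go from `S 0` to `S 1`; so all the fields of
`Lv κ ε g ξ n m` hold. Let `P'` be the packing given by `CDP` and
`P = P'.image (fun T => (T.1, T.2.1, T.2.2))` (coercions, an injective map). Then
`P.image eA` is the image of `P'.image eA`, which gives all the claims; the degree bound of `Sm` at a
vertex outside `S` is `0 ≤ g m` (use `0 < g`). It is convenient to prove first, for one pair of classes: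
for `X' : Finset (↥S × ↥T)` with image `X` in `Fin N × Fin N`, `d1 X a = d1 X' ⟨a, _⟩` for `a ∈ S` and
`d1 X a = 0` for `a ∉ S`; the same for `d2`. -/
def StCDF : Prop :=
  ∀ (ξ g ε : ℝ) (n0 : ℕ), 0 < g → CDP ξ g ε n0 → ∀ (N n m : ℕ) (κ : ℝ)
    (A0 B0 C0 A B C : Finset (Fin N × Fin N)) (S U W : Fin 3 → Finset (Fin N)), 0 ≤ κ →
    κ ≤ 20 / 97 → n0 ≤ n → m = ⌊ξ * n⌋₊ → (∀ j, (S j).card = n) → (∀ j, (U j).card = m) →
    (∀ j, U j ⊆ S j) → (∀ j, W j ⊆ U j) → (∀ j, ((W j).card : ℝ) ≤ ξ * m) →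
    (∀ e ∈ A0, e.1 ∈ S 0 ∧ e.2 ∈ S 1) → (∀ e ∈ B0, e.1 ∈ S 1 ∧ e.2 ∈ S 2) →
    (∀ e ∈ C0, e.1 ∈ S 2 ∧ e.2 ∈ S 0) → A ⊆ A0 → B ⊆ B0 → C ⊆ C0 →
    Near A0 B0 C0 (S 0) (S 1) (S 2) (S 0) (S 1) (S 2) ((κ - ε) * n) ((κ + ε) * n) →
    Near A0 B0 C0 (S 0) (S 1) (S 2) (U 0) (U 1) (U 2) ((κ - ε) * m) ((κ + ε) * m) →
    Sm (A0 \ A) (g * n) → Sm (B0 \ B) (g * n) → Sm (C0 \ C) (g * n) →
    ins A (U 0) (U 1) = ins A0 (U 0) (U 1) → ins B (U 1) (U 2) = ins B0 (U 1) (U 2) →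
    ins C (U 2) (U 0) = ins C0 (U 2) (U 0) → Bal A B C → CDC g m A B C U W

/-- The state of the iteration at the level `i`: `A B C` the given graph, `A' B' C'` the graph to be
decomposed, `A'' B'' C''` what is left of it. -/
structure StI {N : ℕ} (g : ℝ) (ℓ i : ℕ) (A B C A' B' C' A'' B'' C'' : Finset (Fin N × Fin N))
    (V : ℕ → Fin 3 → Finset (Fin N)) : Prop where
  pk : ∃ P, Pack A' B' C' P ∧ A'' = A' \ P.image eA ∧ B'' = B' \ P.image eB ∧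
    C'' = C' \ P.image eC
  bal : Bal A'' B'' C''
  iA : ∀ e ∈ A'', e.1 ∈ V i 0 ∧ e.2 ∈ V i 1
  iB : ∀ e ∈ B'', e.1 ∈ V i 1 ∧ e.2 ∈ V i 2
  iC : ∀ e ∈ C'', e.1 ∈ V i 2 ∧ e.2 ∈ V i 0
  aA : i < ℓ → ins A'' (V (i + 1) 0) (V (i + 1) 1) = ins A (V (i + 1) 0) (V (i + 1) 1)
  aB : i < ℓ → ins B'' (V (i + 1) 1) (V (i + 1) 2) = ins B (V (i + 1) 1) (V (i + 1) 2)
  aC : i < ℓ → ins C'' (V (i + 1) 2) (V (i + 1) 0) = ins C (V (i + 1) 2) (V (i + 1) 0)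
  sA : i < ℓ → Sm (ins A (V i 0) (V i 1) \ A'') (g * (V i 0).card)
  sB : i < ℓ → Sm (ins B (V i 1) (V i 2) \ B'') (g * (V i 0).card)
  sC : i < ℓ → Sm (ins C (V i 2) (V i 0) \ C'') (g * (V i 0).card)

/-- ITS (one step of the iteration). PROOF. Let `n = (V i 0).card`, `m = ⌊ξ n⌋₊ = (V (i+1) j).card`;
`(V i j).card = n` for all `j` (`zero` if `i = 0`: `univ`; `card` otherwise). Apply CDF with `N`,
`A0 = ins A (V i 0) (V i 1)` etc., `A = A''` etc., `S = V i`, `U = V (i+1)`, `W = V (i+2)` if `i + 1 < ℓ` and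
`W = fun _ => ∅` otherwise (`(V (i+2) j).card = ⌊ξ m⌋₊ ≤ ξ m`). Hypotheses: `Near` of `A0` from `near i`
and `next i` (for `a ∈ V i 0`, `b ∈ V i 1`: `(a,b) ∈ A0 ↔ (a,b) ∈ A`, so the numbers `m1`, `m2` agree;
`V (i+1) j ⊆ V i j`); `A'' ⊆ A0` by `iA` and `A'' ⊆ A' ⊆ A`; `ins A0 (V (i+1)) = ins A (V (i+1))`.
CDF gives `P`; with `P0` the packing of `pk`, `P0 ∪ P` is a packing of `(A',B',C')` (PKU (1)) and the new
rest is `A''' = A'' \ P.image eA = A' \ (P0 ∪ P).image eA` (`image_union`, `sdiff_union_distrib`). `bal`: PKB (1).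
`iA`: `A''' ⊆ ins A'' (V (i+1) 0) (V (i+1) 1)`. If `i + 1 < ℓ`: `aA`: an edge of `A` inside `V (i+2)` is inside
`V (i+1)`, so in `A''` by the old `aA`, and not in `P.image eA` as `ins (P.image eA) (W 0) (W 1) = ∅`; `sA`:
`ins A (V (i+1) 0) (V (i+1) 1) \ A''' ⊆ ins (P.image eA) (V (i+1) 0) (V (i+1) 1)` (an edge of
`A` inside `V (i+1)` is in `A''`, so if it is not in `A'''` it is in `P.image eA`), and `d1`, `d2` are monotone. -/
def StITS : Prop :=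
  StPKB → StPKU → StCDF → ∀ (ξ g ε : ℝ) (n0 : ℕ), 0 < ξ → 0 < g → CDP ξ g ε n0 →
    ∀ (N ℓ i : ℕ) (κ : ℝ) (A B C A' B' C' A'' B'' C'' : Finset (Fin N × Fin N))
      (V : ℕ → Fin 3 → Finset (Fin N)), i < ℓ → 0 ≤ κ → κ ≤ 20 / 97 →
      Chain A B C κ ε ξ n0 ℓ V → A' ⊆ A → B' ⊆ B → C' ⊆ C →
      StI g ℓ i A B C A' B' C' A'' B'' C'' V →
      ∃ A3 B3 C3, StI g ℓ (i + 1) A B C A' B' C' A3 B3 C3 V

/-- ITF: `StITR` from ITS. PROOF. By induction on `i ≤ ℓ` there are `A'' B'' C''` with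
`StI g ℓ i A B C A' B' C' A'' B'' C'' V`: for `i = 0` take `A'' = A'` etc. (`P = ∅`; `V 0 j = univ`, so
`ins A (V 0 0) (V 0 1) = A`, `(V 0 0).card = n`); the step is ITS. At `i = ℓ` the field `pk` gives the packing and
`iA`, `iB`, `iC` give the inclusions (`A'' ⊆ A'`). -/
def StITF : Prop := StPKB → StPKU → StCDF → StITS → StITR

/-! ## Final assembly -/

/-- ABF (a family of edge-disjoint absorbers). `𝓛` is a finite set of balanced triples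
`(LA, (LB, LC))` with all labels in `F0`. PROOF. Prove by `Finset.induction_on` over the subsets
`𝓛' ⊆ 𝓛` the statement with the additional conclusion: there is `G : Finset (Fin n)`, `F0 ⊆ G`,
`G.card ≤ F0.card + 𝓛'.card * (11 * e + 1)`, such that all the edges of all `XA L`, `XB L`, `XC L`, `L ∈ 𝓛'`,
have both ends in `G`. For a new `L`: `StABS` with `d = k`, `F = G`
(`4k + G.card + 12 LA.card + 2 ≤ n`) gives `XA XB XC N`; put `G' = G ∪ N`, `XA' = Function.update`. The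
new edges have an end in `N`, disjoint from `G`: so they are not in the old absorbers and do not have both
ends in `F0`. -/
def StABF : Prop :=
  StABS → ∀ (n k e : ℕ) (A B C : Finset (Fin n × Fin n)) (F0 : Finset (Fin n))
    (𝓛 : Finset (Finset (Fin n × Fin n) × Finset (Fin n × Fin n) × Finset (Fin n × Fin n))),
    (∀ i, m1 A univ i ≤ k ∧ m2 A univ i ≤ k ∧ m1 B univ i ≤ k ∧ m2 B univ i ≤ k ∧
      m1 C univ i ≤ k ∧ m2 C univ i ≤ k) →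
    (∀ L ∈ 𝓛, Bal L.1 L.2.1 L.2.2 ∧ L.1.card ≤ e ∧ (∀ x ∈ L.1, x.1 ∈ F0 ∧ x.2 ∈ F0) ∧
      (∀ x ∈ L.2.1, x.1 ∈ F0 ∧ x.2 ∈ F0) ∧ ∀ x ∈ L.2.2, x.1 ∈ F0 ∧ x.2 ∈ F0) →
    4 * k + F0.card + 𝓛.card * (11 * e + 1) + 12 * e + 2 ≤ n →
    ∃ XA XB XC : Finset (Fin n × Fin n) × Finset (Fin n × Fin n) × Finset (Fin n × Fin n) →
        Finset (Fin n × Fin n),
      (∀ L ∈ 𝓛, XA L ⊆ A ∧ XB L ⊆ B ∧ XC L ⊆ C ∧ Dec (XA L) (XB L) (XC L) ∧
        Dec (XA L ∪ L.1) (XB L ∪ L.2.1) (XC L ∪ L.2.2) ∧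
        (∀ x ∈ XA L, ¬ (x.1 ∈ F0 ∧ x.2 ∈ F0)) ∧ (∀ x ∈ XB L, ¬ (x.1 ∈ F0 ∧ x.2 ∈ F0)) ∧
        (∀ x ∈ XC L, ¬ (x.1 ∈ F0 ∧ x.2 ∈ F0)) ∧
        (XA L).card + (XB L).card + (XC L).card ≤ 36 * e) ∧
      ∀ L ∈ 𝓛, ∀ L' ∈ 𝓛, L ≠ L' → Disjoint (XA L) (XA L') ∧ Disjoint (XB L) (XB L') ∧
        Disjoint (XC L) (XC L')

/-- FRM (removing the absorbers). PROOF. `A' = A \ ⋃ XA L`. The union
`(⋃ XA L, ⋃ XB L, ⋃ XC L)` is decomposable by PKU (3), so balanced by PKB (2), so `Bal A' B' C'` by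
PKB (3). `A \ A' ⊆ ⋃ XA L`, whose degrees are at most its cardinality `≤ 𝓛.card * 36 e`
(`card_biUnion_le_card_mul`). No edge of `XA L` has both ends in `F0`, so none is inside `V`
(`V j ⊆ F0`). -/
def StFRM : Prop :=
  StPKB → StPKU → ∀ (n e : ℕ) (t : ℝ) (A B C : Finset (Fin n × Fin n)) (F0 : Finset (Fin n))
    (ι : Type) [DecidableEq ι] (𝓛 : Finset ι) (XA XB XC : ι → Finset (Fin n × Fin n))
    (V : Fin 3 → Finset (Fin n)), Bal A B C → (∀ j, V j ⊆ F0) →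
    (∀ L ∈ 𝓛, XA L ⊆ A ∧ XB L ⊆ B ∧ XC L ⊆ C ∧ Dec (XA L) (XB L) (XC L) ∧
      (∀ x ∈ XA L, ¬ (x.1 ∈ F0 ∧ x.2 ∈ F0)) ∧ (∀ x ∈ XB L, ¬ (x.1 ∈ F0 ∧ x.2 ∈ F0)) ∧
      (∀ x ∈ XC L, ¬ (x.1 ∈ F0 ∧ x.2 ∈ F0)) ∧
      (XA L).card + (XB L).card + (XC L).card ≤ 36 * e) →
    (∀ L ∈ 𝓛, ∀ L' ∈ 𝓛, L ≠ L' → Disjoint (XA L) (XA L') ∧ Disjoint (XB L) (XB L') ∧
      Disjoint (XC L) (XC L')) → ((𝓛.card * (36 * e) : ℕ) : ℝ) ≤ t →
    Bal (A \ 𝓛.biUnion XA) (B \ 𝓛.biUnion XB) (C \ 𝓛.biUnion XC) ∧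
    Sm (A \ (A \ 𝓛.biUnion XA)) t ∧ Sm (B \ (B \ 𝓛.biUnion XB)) t ∧
    Sm (C \ (C \ 𝓛.biUnion XC)) t ∧
    ins (A \ 𝓛.biUnion XA) (V 0) (V 1) = ins A (V 0) (V 1) ∧
    ins (B \ 𝓛.biUnion XB) (V 1) (V 2) = ins B (V 1) (V 2) ∧
    ins (C \ 𝓛.biUnion XC) (V 2) (V 0) = ins C (V 2) (V 0)

/-- FDC (the final decomposition). `L0 ∈ 𝓛` is the rest. PROOF. `A' = A \ ⋃ XA L`. With the packing `P` of
`(A',B',C')`: `A = P.image eA ∪ ((XA L0 ∪ L0.1) ∪ ⋃_{L ∈ 𝓛.erase L0} XA L)`, where `L0.1 = A' \ P.image eA`; all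
the parts are disjoint (`P.image eA ⊆ A'`, `L0.1 ⊆ A'`, `A'` is disjoint from all `XA L`, the `XA L` are
disjoint from each other). `Dec (P.image eA) (P.image eB) (P.image eC)` (by `P` itself: the fields
`iA iB iC`), `Dec (XA L0 ∪ L0.1) ..` given, `Dec` of the big union by PKU (3); two times PKU (2). -/
def StFDC : Prop :=
  StPKU → ∀ (n : ℕ) (A B C : Finset (Fin n × Fin n))
    (𝓛 : Finset (Finset (Fin n × Fin n) × Finset (Fin n × Fin n) × Finset (Fin n × Fin n)))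
    (XA XB XC : Finset (Fin n × Fin n) × Finset (Fin n × Fin n) × Finset (Fin n × Fin n) →
        Finset (Fin n × Fin n)) (P : Finset (Fin n × Fin n × Fin n)),
    (∀ L ∈ 𝓛, XA L ⊆ A ∧ XB L ⊆ B ∧ XC L ⊆ C ∧ Dec (XA L) (XB L) (XC L) ∧
        Dec (XA L ∪ L.1) (XB L ∪ L.2.1) (XC L ∪ L.2.2)) →
    (∀ L ∈ 𝓛, ∀ L' ∈ 𝓛, L ≠ L' → Disjoint (XA L) (XA L') ∧ Disjoint (XB L) (XB L') ∧
      Disjoint (XC L) (XC L')) →
    Pack (A \ 𝓛.biUnion XA) (B \ 𝓛.biUnion XB) (C \ 𝓛.biUnion XC) P →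
    ((A \ 𝓛.biUnion XA) \ P.image eA, (B \ 𝓛.biUnion XB) \ P.image eB,
      (C \ 𝓛.biUnion XC) \ P.image eC) ∈ 𝓛 → Dec A B C

/-- FLL (the set of all possible rests). PROOF. `𝓛` = the set of the triples `(LA, LB, LC)` with
`LA ⊆ V 0 ×ˢ V 1`, `LB ⊆ V 1 ×ˢ V 2`, `LC ⊆ V 2 ×ˢ V 0` and `Bal LA LB LC`: a filter (classical) of the product
of the three powersets, so at most `2 ^ (M * M)` possibilities for each (`card_powerset`,
`(V i ×ˢ V j).card ≤ M * M`, `Nat.pow_le_pow_right`), `LA.card ≤ M * M` (`card_le_card`). -/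
def StFLL : Prop :=
  ∀ (n M : ℕ) (V : Fin 3 → Finset (Fin n)), (∀ j, (V j).card ≤ M) →
    ∃ 𝓛 : Finset (Finset (Fin n × Fin n) × Finset (Fin n × Fin n) × Finset (Fin n × Fin n)),
      𝓛.card ≤ 2 ^ (3 * (M * M)) ∧
      ∀ LA LB LC : Finset (Fin n × Fin n), (LA, LB, LC) ∈ 𝓛 ↔ (Bal LA LB LC ∧
        (∀ x ∈ LA, x.1 ∈ V 0 ∧ x.2 ∈ V 1) ∧ (∀ x ∈ LB, x.1 ∈ V 1 ∧ x.2 ∈ V 2) ∧
        ∀ x ∈ LC, x.1 ∈ V 2 ∧ x.2 ∈ V 0)

/-- FFN: `StFIN` from the modules. PROOF. Let `ξ g ε n1` be given with `CDP ξ g ε n1`; `StVOR` (with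
`StSUB`) gives `N0`; `n0 = max n1 (max N0 1)`, `CDP ξ g ε n0` (monotone in `n0`); `StVOR` gives `M`. Let
`e = M * M`, `q = 2 ^ (3 * (M * M))`. Take `n ≥ n0`, `n > M`, `q * (36 * e) ≤ g n`,
`20 (q * (11 * e + 1) + 12 * e + 2) ≤ n`. Given `k`, `A B C` regular with `97 k ≤ 20 n`. `StVOR`: `ℓ`, `V`,
`Chain A B C (k/n) ε ξ n0 ℓ V`, `(V ℓ j).card ≤ M`; `ℓ ≥ 1` since `V 0 j = univ` has `n > M` elements.
`V ℓ j ⊆ V 1 j` (induction on `sub`). `F0 = V 1 0 ∪ V 1 1 ∪ V 1 2`, `F0.card ≤ 3 ξ n ≤ 3 n / 1000`. `𝓛` from FLL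
for `V ℓ`. ABF: `4k ≤ 80 n / 97`, so `4k + 3n/1000 + n/20 ≤ n`. Every element `x` of `V ℓ` is in `F0`;
`L.1.card ≤ M * M` (subset of the product `V ℓ 0 ×ˢ V ℓ 1`). `Bal A B C`: `d1 A a = n - k` (`d1 A a + m1 A univ a = n`)
and the same for the other degrees. FRM with `t = g n` and `V = V 1`. `StITR` for `κ = k / n` (`≤ 20/97`),
`A' = A \ 𝓛.biUnion XA` etc. gives `P`; the rest `(A' \ P.image eA, ..)` is balanced (PKB (1)) and inside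
`V ℓ`, so it is in `𝓛`. FDC. -/
def StFFN : Prop :=
  StPKB → StPKU → StABF → StFRM → StFDC → StFLL → StFIN

end Pool.Agent.Helper17.IA
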