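import Pool.Agent.Helper17.IA.StV

set_option autoImplicit false

namespace Pool.Agent.Helper17.IA

open Finset Pool.Agent.Helper93.IA

theorem hVOF (hVSF : StVSF) (hVAN : StVAN) (hVST : StVST) (hVCH : StVCH) : StVOR := by
  intro hSUB ξ ε hξ hξ1 hε
  obtain ⟨N0, hN0, h⟩ := hVCH (hVST hSUB hVSF hVAN) ξ ε hξ hξ1 hε
  refine ⟨N0, fun n0 hn0 => ?_⟩
  obtain ⟨M, hM⟩ := h n0 hn0
  refine ⟨M, fun n k A B C hn hreg => ?_⟩
  have hn1 : 1 ≤ n := le_trans hN0 (le_trans hn0 hn)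
  have hnr : (0 : ℝ) < n := by exact_mod_cast hn1
  have hk : (k : ℝ) / n * n = k := by field_simp
  have hpow : (0 : ℝ) ≤ (n : ℝ) ^ ((2 : ℝ) / 3) := Real.rpow_nonneg hnr.le _
  have key : ∀ j : ℕ, j = k → (k : ℝ) / n * n - 2 * (n : ℝ) ^ ((2 : ℝ) / 3) ≤ (j : ℝ) ∧
      (j : ℝ) ≤ (k : ℝ) / n * n + 2 * (n : ℝ) ^ ((2 : ℝ) / 3) := by
    rintro j rfl
    rw [hk]
    constructor <;> linarith
  obtain ⟨ℓ, V, hV, hlast⟩ := hM n n ((k : ℝ) / n) A B C (fun _ => univ) hn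
    (fun _ => by simp) (by
      refine ⟨⟨fun a _ => key _ (hreg a).1, fun b _ => key _ (hreg b).2.1⟩,
        ⟨fun a _ => key _ (hreg a).2.2.1, fun b _ => key _ (hreg b).2.2.2.1⟩,
        ⟨fun a _ => key _ (hreg a).2.2.2.2.1, fun b _ => key _ (hreg b).2.2.2.2.2⟩⟩)
  exact ⟨ℓ, V, ⟨hV.zero, hV.sub, hV.card, hV.big, hV.near, hV.next⟩, hlast⟩

end Pool.Agent.Helper17.IA
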